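import Pool.Agent.H695R3.PP.Stmts

/-!
Project H695-LP, TaskSplit: two close eigenvalues of a box give close eigenvalues of two
complementary boxes.
-/

set_option autoImplicit false

open scoped BigOperators

namespace Pool.Agent.H165R3.PP

open Pool.Agent.H695R3.PP

lemma sum_shift (a b : ℤ) (ψ ψ' : ℤ → ℝ) (h1 : ∀ n, n < a ∨ b < n → ψ n = 0)
    (h2 : ∀ n, n < a ∨ b < n → ψ' n = 0) :
    ∑ n ∈ Finset.Icc a b, ψ (n + 1) * ψ' n = ∑ n ∈ Finset.Icc a b, ψ n * ψ' (n - 1) := by
  have e1 : ∑' n : ℤ, ψ (n + 1) * ψ' n = ∑ n ∈ Finset.Icc a b, ψ (n + 1) * ψ' n := by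
    apply tsum_eq_sum
    intro n hn
    rw [h2 n (by rw [Finset.mem_Icc] at hn; omega), mul_zero]
  have e2 : ∑' n : ℤ, ψ n * ψ' (n - 1) = ∑ n ∈ Finset.Icc a b, ψ n * ψ' (n - 1) := by
    apply tsum_eq_sum
    intro n hn
    rw [h1 n (by rw [Finset.mem_Icc] at hn; omega), zero_mul]
  rw [← e1, ← e2, ← (Equiv.addRight (1 : ℤ)).tsum_eq (fun n => ψ n * ψ' (n - 1))]
  congr 1
  funext n
  simp

lemma orth {V : ℤ → ℝ} {a b : ℤ} {E E' : ℝ} {ψ ψ' : ℤ → ℝ} (h : IsEig V a b E ψ)
    (h' : IsEig V a b E' ψ') (hE : E ≠ E') :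
    ∑ n ∈ Finset.Icc a b, ψ n * ψ' n = 0 := by
  have s1 := sum_shift a b ψ ψ' h.1 h'.1
  have s2 := sum_shift a b ψ' ψ h'.1 h.1
  have e1 : ∑ n ∈ Finset.Icc a b, ((ψ (n + 1) * ψ' n - ψ n * ψ' (n - 1)) -
      (ψ' (n + 1) * ψ n - ψ' n * ψ (n - 1))) = 0 := by
    rw [Finset.sum_sub_distrib, Finset.sum_sub_distrib, Finset.sum_sub_distrib, s1, s2]
    ring
  have e2 : ∀ n ∈ Finset.Icc a b, ((ψ (n + 1) * ψ' n - ψ n * ψ' (n - 1)) -
      (ψ' (n + 1) * ψ n - ψ' n * ψ (n - 1))) = (E - E') * (ψ n * ψ' n) := by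
    intro n hn
    rw [Finset.mem_Icc] at hn
    have k1 := h.2.2 n hn.1 hn.2
    have k2 := h'.2.2 n hn.1 hn.2
    linear_combination ψ' n * k1 - ψ n * k2
  rw [Finset.sum_congr rfl e2, ← Finset.mul_sum] at e1
  rcases mul_eq_zero.1 e1 with h0 | h0
  · exact absurd (sub_eq_zero.1 h0) hE
  · exact h0

lemma key (hA : TaskApprox) {V : ℤ → ℝ} {a b : ℤ} {E E' d : ℝ} {ψ ψ' : ℤ → ℝ}
    (h : IsEig V a b E ψ) (h' : IsEig V a b E' ψ') (hE : E ≠ E') (hd : |E - E'| ≤ d) (m : ℤ)
    (hm : a ≤ m ∧ m ≤ b) :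
    (∃ lam φ, IsEig V a (m - 1) lam φ ∧ |lam - E| ≤ 3 / 2 * d) ∨
      (∃ lam φ, IsEig V (m + 1) b lam φ ∧ |lam - E| ≤ 3 / 2 * d) := by
  have hd0 : 0 ≤ d := (abs_nonneg _).trans hd
  have ho := orth h h' hE
  obtain ⟨c, c', hc, hcm⟩ : ∃ c c' : ℝ, 0 < c ^ 2 + c' ^ 2 ∧ c * ψ m + c' * ψ' m = 0 := by
    by_cases h0 : ψ m = 0
    · exact ⟨1, 0, by norm_num, by rw [h0]; ring⟩
    · refine ⟨ψ' m, -ψ m, ?_, by ring⟩
      have : 0 < (ψ m) ^ 2 := by positivity
      nlinarith [sq_nonneg (ψ' m)]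
  set f : ℤ → ℝ := fun n => c * ψ n + c' * ψ' n with hf
  have hfm : f m = 0 := hcm
  have hf0 : ∀ n, n < a ∨ b < n → f n = 0 := by
    intro n hn
    simp only [hf]
    rw [h.1 n hn, h'.1 n hn]; ring
  have hn1 : ∑ n ∈ Finset.Icc a b, ψ n ^ 2 = 1 := h.2.1
  have hn2 : ∑ n ∈ Finset.Icc a b, ψ' n ^ 2 = 1 := h'.2.1
  have hfn : nsq a b f = c ^ 2 + c' ^ 2 := by
    unfold nsq
    have e : ∀ n, f n ^ 2 = c ^ 2 * ψ n ^ 2 + c' ^ 2 * ψ' n ^ 2 + 2 * c * c' * (ψ n * ψ' n) := by
      intro n; simp only [hf]; ring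
    simp_rw [e]
    rw [Finset.sum_add_distrib, Finset.sum_add_distrib, ← Finset.mul_sum, ← Finset.mul_sum,
      ← Finset.mul_sum, ho, hn1, hn2]
    ring
  have hres : ∀ n ∈ Finset.Icc a b,
      (f (n + 1) + f (n - 1) + V n * f n - E * f n) ^ 2 = (c' ^ 2 * (E' - E) ^ 2) * ψ' n ^ 2 := by
    intro n hn
    rw [Finset.mem_Icc] at hn
    have k1 := h.2.2 n hn.1 hn.2
    have k2 := h'.2.2 n hn.1 hn.2
    have k3 : f (n + 1) + f (n - 1) + V n * f n - E * f n = c' * (E' - E) * ψ' n := by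
      simp only [hf]
      linear_combination c * k1 + c' * k2
    rw [k3]; ring
  have hressum : ∑ n ∈ Finset.Icc a b, (f (n + 1) + f (n - 1) + V n * f n - E * f n) ^ 2 ≤
      d ^ 2 * nsq a b f := by
    rw [Finset.sum_congr rfl hres, ← Finset.mul_sum, hn2, hfn, mul_one]
    have h3 : (E' - E) ^ 2 ≤ d ^ 2 := by
      have h4 : |E' - E| ≤ d := by rwa [abs_sub_comm]
      calc (E' - E) ^ 2 = |E' - E| ^ 2 := (sq_abs _).symm
        _ ≤ d ^ 2 := pow_le_pow_left₀ (abs_nonneg _) h4 2
    nlinarith [mul_le_mul_of_nonneg_left h3 (sq_nonneg c'), mul_nonneg (sq_nonneg d) (sq_nonneg c)]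
  set fl : ℤ → ℝ := fun n => if n < m then f n else 0 with hfl
  set fr : ℤ → ℝ := fun n => if m < n then f n else 0 with hfr
  have hsplit : nsq a (m - 1) fl + nsq (m + 1) b fr = nsq a b f := by
    have e1 : nsq a (m - 1) fl = ∑ n ∈ Finset.Icc a b, fl n ^ 2 := by
      unfold nsq
      apply Finset.sum_subset
      · intro n hn
        rw [Finset.mem_Icc] at hn ⊢
        omega
      · intro n hn hn'
        rw [Finset.mem_Icc] at hn hn'
        simp only [hfl]
        rw [if_neg (by omega)]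
        norm_num
    have e2 : nsq (m + 1) b fr = ∑ n ∈ Finset.Icc a b, fr n ^ 2 := by
      unfold nsq
      apply Finset.sum_subset
      · intro n hn
        rw [Finset.mem_Icc] at hn ⊢
        omega
      · intro n hn hn'
        rw [Finset.mem_Icc] at hn hn'
        simp only [hfr]
        rw [if_neg (by omega)]
        norm_num
    rw [e1, e2, ← Finset.sum_add_distrib]
    unfold nsq
    refine Finset.sum_congr rfl fun n _ => ?_
    simp only [hfl, hfr]
    rcases lt_trichotomy n m with hlt | heq | hgt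
    · rw [if_pos hlt, if_neg (by omega)]; ring
    · rw [if_neg (by omega), if_neg (by omega), heq, hfm]; ring
    · rw [if_neg (by omega), if_pos hgt]; ring
  have hpos : 0 < nsq a b f := by rw [hfn]; exact hc
  have hcase : nsq a b f ≤ 2 * nsq a (m - 1) fl ∨ nsq a b f ≤ 2 * nsq (m + 1) b fr := by
    by_contra hcon
    push Not at hcon
    linarith [hcon.1, hcon.2]
  rcases hcase with hl | hr
  · left
    refine hA V a (m - 1) E (3 / 2 * d) fl (by positivity) ?_ (by linarith) ?_
    · intro n hn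
      simp only [hfl]
      rcases hn with hn | hn
      · rw [if_pos (by omega)]
        exact hf0 n (Or.inl hn)
      · rw [if_neg (by omega)]
    · have e1 : ∀ n ∈ Finset.Icc a (m - 1), (fl (n + 1) + fl (n - 1) + V n * fl n - E * fl n) ^ 2 =
          (f (n + 1) + f (n - 1) + V n * f n - E * f n) ^ 2 := by
        intro n hn
        rw [Finset.mem_Icc] at hn
        have k1 : fl (n + 1) = f (n + 1) := by
          simp only [hfl]
          by_cases hnm : n + 1 = m
          · rw [if_neg (by omega), hnm, hfm]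
          · rw [if_pos (by omega)]
        have k2 : fl (n - 1) = f (n - 1) := by
          simp only [hfl]; rw [if_pos (by omega)]
        have k3 : fl n = f n := by
          simp only [hfl]; rw [if_pos (by omega)]
        rw [k1, k2, k3]
      rw [Finset.sum_congr rfl e1]
      have e2 : ∑ n ∈ Finset.Icc a (m - 1), (f (n + 1) + f (n - 1) + V n * f n - E * f n) ^ 2 ≤
          ∑ n ∈ Finset.Icc a b, (f (n + 1) + f (n - 1) + V n * f n - E * f n) ^ 2 := by
        apply Finset.sum_le_sum_of_subset_of_nonneg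
        · intro n hn
          rw [Finset.mem_Icc] at hn ⊢
          omega
        · intro n _ _; positivity
      refine e2.trans (hressum.trans ?_)
      nlinarith [mul_le_mul_of_nonneg_left hl (sq_nonneg d), sq_nonneg d,
        mul_nonneg (sq_nonneg d) hpos.le]
  · right
    refine hA V (m + 1) b E (3 / 2 * d) fr (by positivity) ?_ (by linarith) ?_
    · intro n hn
      simp only [hfr]
      rcases hn with hn | hn
      · rw [if_neg (by omega)]
      · rw [if_pos (by omega)]
        exact hf0 n (Or.inr hn)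
    · have e1 : ∀ n ∈ Finset.Icc (m + 1) b, (fr (n + 1) + fr (n - 1) + V n * fr n - E * fr n) ^ 2 =
          (f (n + 1) + f (n - 1) + V n * f n - E * f n) ^ 2 := by
        intro n hn
        rw [Finset.mem_Icc] at hn
        have k1 : fr (n + 1) = f (n + 1) := by
          simp only [hfr]; rw [if_pos (by omega)]
        have k2 : fr (n - 1) = f (n - 1) := by
          simp only [hfr]
          by_cases hnm : n - 1 = m
          · rw [if_neg (by omega), hnm, hfm]
          · rw [if_pos (by omega)]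
        have k3 : fr n = f n := by
          simp only [hfr]; rw [if_pos (by omega)]
        rw [k1, k2, k3]
      rw [Finset.sum_congr rfl e1]
      have e2 : ∑ n ∈ Finset.Icc (m + 1) b, (f (n + 1) + f (n - 1) + V n * f n - E * f n) ^ 2 ≤
          ∑ n ∈ Finset.Icc a b, (f (n + 1) + f (n - 1) + V n * f n - E * f n) ^ 2 := by
        apply Finset.sum_le_sum_of_subset_of_nonneg
        · intro n hn
          rw [Finset.mem_Icc] at hn ⊢
          omega
        · intro n _ _; positivity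
      refine e2.trans (hressum.trans ?_)
      nlinarith [mul_le_mul_of_nonneg_left hr (sq_nonneg d), sq_nonneg d,
        mul_nonneg (sq_nonneg d) hpos.le]

lemma not_eig_empty {V : ℤ → ℝ} {a b : ℤ} {E : ℝ} {ψ : ℤ → ℝ} (hab : b < a) :
    ¬ IsEig V a b E ψ := by
  intro h
  have h1 := h.2.1
  unfold nsq at h1
  rw [Finset.Icc_eq_empty (by omega)] at h1
  simp at h1

/-- Two close eigenvalues of a box give close eigenvalues of two complementary boxes. -/
theorem taskSplit (hA : TaskApprox) : TaskSplit := by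
  classical
  intro V a b E E' d ψ ψ' hab h h' hE hd
  have hk := key hA h h' hE hd
  set P : ℕ → Prop := fun k => ∃ lam φ, IsEig V a (a + k - 1) lam φ ∧ |lam - E| ≤ 3 / 2 * d with hP
  have hex : ∃ k, P k := by
    refine ⟨(b - a).toNat, ?_⟩
    have e : a + ((b - a).toNat : ℤ) = b := by
      rw [Int.toNat_of_nonneg (by omega)]; ring
    simp only [hP]
    rw [e]
    rcases hk b ⟨hab, le_rfl⟩ with h1 | h1
    · exact h1
    · obtain ⟨lam, φ, h2, _⟩ := h1
      exact absurd h2 (not_eig_empty (by omega))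
  set k := Nat.find hex with hkdef
  have hPk : P k := Nat.find_spec hex
  have hmin : ∀ j, j < k → ¬ P j := fun j hj => Nat.find_min hex hj
  have hkb : a + (k : ℤ) ≤ b := by
    have h1 : k ≤ (b - a).toNat := by
      apply Nat.find_min'
      have e : a + ((b - a).toNat : ℤ) = b := by
        rw [Int.toNat_of_nonneg (by omega)]; ring
      simp only [hP]
      rw [e]
      rcases hk b ⟨hab, le_rfl⟩ with h1 | h1
      · exact h1
      · obtain ⟨lam, φ, h2, _⟩ := h1
        exact absurd h2 (not_eig_empty (by omega))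
    omega
  have hk0 : k ≠ 0 := by
    intro h0
    rw [h0] at hPk
    obtain ⟨lam, φ, h2, _⟩ := hPk
    exact not_eig_empty (by push_cast; omega) h2
  have hprev := hmin (k - 1) (by omega)
  have ek : ((k - 1 : ℕ) : ℤ) = (k : ℤ) - 1 := by omega
  rcases hk (a + (k : ℤ) - 1) ⟨by omega, by omega⟩ with h1 | h1
  · exfalso
    apply hprev
    simp only [hP]
    rw [ek, ← add_sub_assoc]
    exact h1
  · obtain ⟨lam, φ, h2, h3⟩ := hPk
    obtain ⟨lam', φ', h4, h5⟩ := h1
    refine ⟨a + k, by omega, hkb, lam, φ, lam', φ', h2, ?_, ?_⟩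
    · have e : a + (k : ℤ) - 1 + 1 = a + k := by ring
      rwa [e] at h4
    · have h6 : lam - lam' = (lam - E) - (lam' - E) := by ring
      rw [h6]
      refine (abs_sub _ _).trans ?_
      linarith

end Pool.Agent.H165R3.PP
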